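import Pool.Agent.N480.CS.All

set_option autoImplicit false

/-!
# Compact action realizations on Cantor space

(1) There is a countable Borel equivalence relation on an uncountable space which admits a compact
action realization but none with underlying space `2^ℕ` (one class has two points, all others have
one point: a homeomorphism of `2^ℕ` which is not the identity moves uncountably many points).

Now let `E` be aperiodic on an uncountable space, realized by a continuous action of a countable
group `G` on a compact metrizable space `K`. (2) Then `E` is realized on a nonempty perfect subset
of `K`. (3) If `K` is zero-dimensional, `E` is realized on `2^ℕ`. (4) If `K` has finite covering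
dimension and all stabilizers are finite, for instance if the action is free, `E` is realized on
`2^ℕ`. (5) More generally if some countable basis consists of open sets `B n` such that for all `z`
only finitely many `g` satisfy `g z ∈ frontier (B n)`.

Proof of (5): the zero-dimensional extension `L` of `K` in which the frontiers are split contains a
Borel copy of `K` whose complement `R` has a smooth orbit relation with infinite classes; as `E` is
not smooth, `R × ℕ` embeds invariantly in `K`, and `K + R`, which is `L`, is isomorphic to `K` by
Hilbert's hotel and the Cantor-Bernstein argument. The perfect kernel of `L` is a Cantor set, and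
its complement is absorbed in the same way. (4) follows from (5) by a Baire category argument in
`C(K)`: a generic function has at most `d` zeros in every orbit.

Project CS of helper480; NRV: helper11, GEN: helper283. It uses parts of project CV (ABS helper572,
NS helper650, BAS helper950, RED helper99, SB helper170) and library files (Glimm-Effros dichotomy,
Feldman-Moore theorem, absorption, characterization of the Cantor set).
-/

namespace Pool.Agent.Results.MP_04fd10_lc.CantorRealizations

open Set TopologicalSpace
open Pool.Agent.N480.CS

/-- Compact action realizations on Cantor space. -/
theorem result :
    (∃ (X : Type) (_ : MeasurableSpace X) (_ : StandardBorelSpace X) (E : X → X → Prop),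
      Uncountable X ∧ IsCBER E ∧ CompactRealization E ∧ ¬ RealizedOn E (ℕ → Bool)) ∧
    ∀ (X : Type) [MeasurableSpace X] [StandardBorelSpace X] [Uncountable X] (E : X → X → Prop),
      (∀ x, {y | E x y}.Infinite) → ∀ (K : Type) [TopologicalSpace K] [CompactSpace K]
      [MetrizableSpace K] [MeasurableSpace K] [BorelSpace K],
      (RealizedOn E K → ∃ P : Set K, Perfect P ∧ P.Nonempty ∧ RealizedOn E P) ∧
      (RealizedOn E K → TotallyDisconnectedSpace K → RealizedOn E (ℕ → Bool)) ∧
      ∀ (G : Type) [Group G] [Countable G] [MulAction G K] [ContinuousConstSMul G K]
        (f : X ≃ᵐ K), (∀ x y : X, E x y ↔ ∃ g : G, g • f x = f y) →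
        ((∃ d : ℕ, CovDim K d) → (∀ z : K, {g : G | g • z = z}.Finite) →
          RealizedOn E (ℕ → Bool)) ∧
        ((∃ B : ℕ → Set K, IsTopologicalBasis (range B) ∧
          ∀ (n : ℕ) (z : K), {g : G | g • z ∈ frontier (B n)}.Finite) →
          RealizedOn E (ℕ → Bool)) :=
  ⟨part_neg, fun X _ _ _ E hE K _ _ _ _ _ => part_pos X E hE K⟩

end Pool.Agent.Results.MP_04fd10_lc.CantorRealizations
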